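import Pool.Agent.Helper99.DF.St

/-!
# DF module AE3
-/

set_option autoImplicit false

namespace Pool.Agent.Helper84.DF

open Pool.Agent.Helper99.DF

theorem hAE3 : StAE3 := by
  intro K Z c M c0 f g A B hc0 hM hf hg hA hB
  obtain ⟨p, C1, hp⟩ := hf
  obtain ⟨q, C2, hq⟩ := hg
  refine ⟨p * q, A * C2 + C1 * (B + C2), fun t => ?_⟩
  rw [map_mul]
  generalize hP : MvPolynomial.aeval (fun k : Z => Real.exp (-(c k * 2 ^ t))) p = P
  generalize hQ : MvPolynomial.aeval (fun k : Z => Real.exp (-(c k * 2 ^ t))) q = Q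
  have h1 := hp t
  have h2 := hq t
  rw [hP] at h1
  rw [hQ] at h2
  have h3 := hA t
  have h4 := hB t
  have h2t : (0 : ℝ) < 2 ^ t := by positivity
  have hEG : Real.exp (-((M + c0) * 2 ^ t)) =
      Real.exp (-(M * 2 ^ t)) * Real.exp (-(c0 * 2 ^ t)) := by
    rw [← Real.exp_add]
    congr 1
    ring
  have hle : Real.exp (-(M * 2 ^ t)) ≤ Real.exp (-(c0 * 2 ^ t)) := by
    apply Real.exp_le_exp.2
    have := mul_le_mul_of_nonneg_right hM h2t.le
    linarith
  have hE0 : 0 < Real.exp (-(c0 * 2 ^ t)) := Real.exp_pos _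
  have hG0 : 0 < Real.exp (-(M * 2 ^ t)) := Real.exp_pos _
  rw [hEG]
  generalize Real.exp (-(c0 * 2 ^ t)) = E at *
  generalize Real.exp (-(M * 2 ^ t)) = G at *
  have hC2 : 0 ≤ C2 := by
    by_contra hn
    push Not at hn
    have := (abs_nonneg _).trans h2
    nlinarith
  have hC1 : 0 ≤ C1 := by
    by_contra hn
    push Not at hn
    have := (abs_nonneg _).trans h1
    nlinarith
  have hQb : |Q| ≤ (B + C2) * E := by
    have h5 : |Q| ≤ |g t| + |g t - Q| := by
      calc |Q| = |g t - (g t - Q)| := by congr 1; ring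
        _ ≤ |g t| + |g t - Q| := abs_sub _ _
    have h6 : C2 * G ≤ C2 * E := mul_le_mul_of_nonneg_left hle hC2
    linarith
  have h7 : f t * g t - P * Q = f t * (g t - Q) + (f t - P) * Q := by ring
  rw [h7]
  calc |f t * (g t - Q) + (f t - P) * Q|
      ≤ |f t| * |g t - Q| + |f t - P| * |Q| := by
        refine (abs_add_le _ _).trans ?_
        rw [abs_mul, abs_mul]
    _ ≤ (A * E) * (C2 * G) + (C1 * G) * ((B + C2) * E) := by
        have h8 : 0 ≤ A * E := (abs_nonneg _).trans h3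
        have h9 : 0 ≤ C1 * G := (abs_nonneg _).trans h1
        exact add_le_add (mul_le_mul h3 h2 (abs_nonneg _) h8)
          (mul_le_mul h1 hQb (abs_nonneg _) h9)
    _ = (A * C2 + C1 * (B + C2)) * (G * E) := by ring

end Pool.Agent.Helper84.DF
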