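import Pool.Agent.Helper99.DF.St

/-!
# DF module PR1: the iterated operator on lists is primitive recursive
-/

set_option autoImplicit false

namespace Pool.Agent.Helper84.DF

open Pool.Agent.Helper99.DF Pool.Agent.Helper4.IL

theorem prim_sq : Primrec₂ (fun (l : List ℤ) (k : ℕ) => sq l k) :=
  (Primrec.list_getD (0 : ℤ)).of_eq fun _ _ => rfl

theorem prim_Tsq : Primrec₂ (fun (l : List ℤ) (k : ℕ) => T (sq l) k) := by
  have h1 : Primrec₂ (fun (l : List ℤ) (k : ℕ) => sq l k * sq l k) :=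
    primrec_int_mul.comp₂ prim_sq prim_sq
  have h2 : Primrec₂ (fun (l : List ℤ) (k : ℕ) => sq l (k - 1)) :=
    prim_sq.comp₂ Primrec₂.left (Primrec.pred.comp₂ Primrec₂.right)
  have h3 : Primrec₂ (fun (l : List ℤ) (k : ℕ) => sq l (k + 1)) :=
    prim_sq.comp₂ Primrec₂.left (Primrec.succ.comp₂ Primrec₂.right)
  have h4 : Primrec₂ (fun (l : List ℤ) (k : ℕ) => sq l (k - 1) * sq l (k + 1)) :=
    primrec_int_mul.comp₂ h2 h3
  have h5 : Primrec₂ (fun (l : List ℤ) (k : ℕ) =>
      sq l k * sq l k - sq l (k - 1) * sq l (k + 1)) :=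
    primrec_int_sub.comp₂ h1 h4
  refine h5.of_eq fun l k => ?_
  unfold T
  ring

theorem prim_TL : Primrec TL := by
  have h : Primrec (fun l : List ℤ => (List.range l.length).map (T (sq l))) :=
    Primrec.list_map (Primrec.list_range.comp Primrec.list_length) prim_Tsq
  exact h.of_eq fun l => rfl

theorem hPR1 : StPR1 := by
  unfold StPR1
  exact Primrec.nat_iterate (f := fun q : ℕ × List ℤ => q.1) (g := fun q : ℕ × List ℤ => q.2)
    (h := fun (_ : ℕ × List ℤ) (l : List ℤ) => TL l) Primrec.fst Primrec.snd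
    (prim_TL.comp₂ Primrec₂.right)

end Pool.Agent.Helper84.DF
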